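import Pool.Agent.helper55.NK.Spec

/-! # Row EXP of project NK -/

set_option autoImplicit false

namespace Pool.Agent.helper47.NK

open Pool.Agent.NK Finset

theorem EXP : EXP_stmt := by
  intro t ht
  obtain ⟨s, rfl⟩ : ∃ s, t = s + 1 := ⟨t - 1, by omega⟩
  have hs : 1 ≤ s := by omega
  have hs' : (0 : ℝ) < s := by exact_mod_cast hs
  have h1 : (1 : ℝ) - 1 / ((s + 1 : ℕ) : ℝ) = s / (s + 1) := by
    push_cast
    field_simp
    ring
  rw [h1, Nat.add_sub_cancel]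
  have h2 : Real.exp (-(1 / (s : ℝ))) ≤ (s : ℝ) / (s + 1) := by
    rw [Real.exp_neg]
    have h3 : 1 / (s : ℝ) + 1 ≤ Real.exp (1 / (s : ℝ)) := Real.add_one_le_exp _
    have h4 : (s : ℝ) / (s + 1) = (1 / (s : ℝ) + 1)⁻¹ := by
      field_simp
      ring
    rw [h4]
    apply inv_anti₀ _ h3
    positivity
  have h5 : (Real.exp (-(1 / (s : ℝ)))) ^ s ≤ ((s : ℝ) / (s + 1)) ^ s :=
    pow_le_pow_left₀ (Real.exp_pos _).le h2 s
  have h6 : (Real.exp (-(1 / (s : ℝ)))) ^ s = Real.exp (-1) := by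
    rw [← Real.exp_nat_mul]
    congr 1
    field_simp
  rw [h6] at h5
  have h7 := Real.exp_neg_one_gt_d9
  linarith

end Pool.Agent.helper47.NK
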